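import Pool.Agent.W851.BE.Stm

/-!
# Vertical arcs in a pole-free disc
-/

set_option autoImplicit false

open Polynomial Topology Filter MeasureTheory
open scoped ENNReal

namespace Pool.Agent.W284.BE.Off

open Pool.Agent.W95.BK Pool.Agent.W851.BE

universe u

section

set_option linter.unusedSectionVars false

variable {K : Type u} [NontriviallyNormedField K] [IsUltrametricDist K] [IsAlgClosed K]

lemma lam_nonneg (x : BA K) (b : K) : 0 ≤ lam x b := x.nonneg' _

lemma prod_le (hVAL : S_VAL.{u}) (x y : BA K) (h : K[X]) (hw : ∀ w ∈ h.roots, lam x w ≤ lam y w) :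
    x h ≤ y h := by
  rw [hVAL K x h, hVAL K y h]
  refine mul_le_mul_of_nonneg_left ?_ (norm_nonneg _)
  exact Multiset.prod_map_le_prod_map₀ _ _ (fun w _ => lam_nonneg x w) hw

lemma valQ (hVAL : S_VAL.{u}) (hISO : S_ISO.{u}) (hGLAM : S_GLAM.{u}) (v : BA K) (z : K) (Q : K[X])
    (h : ∀ w, w ∈ Q.roots → lam v z < ‖w - z‖) : v Q = ‖Q.eval z‖ := by
  have h1 : (cl z : BA K) Q = ‖Q.eval z‖ := rfl
  rw [← h1, hVAL K v Q, hVAL K (cl z) Q]
  congr 2
  refine Multiset.map_congr rfl fun w hw => ?_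
  rw [(hGLAM K z w).1, (hISO K v w z).2.2.1 (h w hw), norm_sub_rev]

lemma gn_eq (a : K) (t : ℝ) (ht : 0 < t) (h : K[X]) : gn a t h = (gauss a t ht : BA K) h := rfl

lemma gn_add_le (a : K) (t : ℝ) (ht : 0 < t) (f h : K[X]) : gn a t (f + h) ≤ max (gn a t f) (gn a t h) :=
  (gauss a t ht : BA K).map_add' f h

lemma gn_mul (a : K) (t : ℝ) (ht : 0 < t) (f h : K[X]) : gn a t (f * h) = gn a t f * gn a t h :=
  (gauss a t ht : BA K).map_mul' f h

lemma gn_C (a : K) (t : ℝ) (ht : 0 < t) (c : K) : gn a t (C c) = ‖c‖ :=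
  (gauss a t ht : BA K).map_C' c

lemma gn_CQ (a : K) (t : ℝ) (ht : 0 < t) (c : K) (Q : K[X]) : gn a t (C c * Q) = ‖c‖ * gn a t Q := by
  rw [gn_mul a t ht, gn_C a t ht]

lemma gn_neg (a : K) (t : ℝ) (ht : 0 < t) (f : K[X]) : gn a t (-f) = gn a t f := by
  have h : -f = C (-1) * f := by simp
  rw [h, gn_CQ a t ht]
  simp

/-- the data at a centre -/
lemma cen (hNPOL : S_NPOL.{u}) (g : RMap K) (z : K) (T : ℝ) (hT : 0 < T)
    (hQ : ∀ w : K, g.Q.eval w = 0 → T ≤ ‖w - z‖) :
    g.Q.eval z ≠ 0 ∧ g.P - C (g.P.eval z / g.Q.eval z) * g.Q ≠ 0 ∧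
      (g.P - C (g.P.eval z / g.Q.eval z) * g.Q).eval z = 0 ∧
      (∀ t, 0 < t → t < T → gn z t g.Q = ‖g.Q.eval z‖) := by
  have h1 : g.Q.eval z ≠ 0 := by
    intro h
    have := hQ z h
    simp at this
    linarith
  have hQ0 : g.Q ≠ 0 := by
    intro h
    apply h1
    rw [h]
    simp
  refine ⟨h1, ?_, ?_, ?_⟩
  · intro h
    have h2 : g.P = C (g.P.eval z / g.Q.eval z) * g.Q := sub_eq_zero.mp h
    have h3 : g.Q ∣ g.P := ⟨_, h2.trans (mul_comm _ _)⟩
    have h4 : IsUnit g.Q := by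
      have := g.cop
      exact (this.symm).isUnit_of_dvd h3
    have h5 : g.Q.natDegree = 0 := natDegree_eq_zero_of_isUnit h4
    have h6 : g.P.natDegree = 0 := by
      have := natDegree_C_mul_le (g.P.eval z / g.Q.eval z) g.Q
      rw [← h2] at this
      omega
    have := g.deg_eq
    have := g.pos
    rw [h5, h6] at *
    simp at *
    omega
  · rw [eval_sub, eval_mul, eval_C, div_mul_cancel₀ _ h1, sub_self]
  · intro t ht htT
    have hn := hNPOL K g.Q z t hQ0 ht
    have h0 : nIn g.Q {w | ‖w - z‖ < t} = 0 := by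
      unfold nIn
      rw [Multiset.card_eq_zero, Multiset.filter_eq_nil]
      intro w hw hlt
      have h3 := hQ w ((mem_roots hQ0).1 hw)
      simp only [Set.mem_ofPred_eq] at hlt
      linarith
    have h4 := hn.2.2.1
    rw [h0] at h4
    rw [← h4]
    simp [taylor_coeff_zero]

lemma gnmax (hNPOL : S_NPOL.{u}) (z : K) (t : ℝ) (ht : 0 < t) (F Q : K[X]) (hF : F ≠ 0)
    (hFz : F.eval z = 0) (hQz : Q.eval z ≠ 0) (hQt : gn z t Q = ‖Q.eval z‖) (β : K) :
    F - C β * Q ≠ 0 ∧ gn z t (F - C β * Q) = max (gn z t F) (‖β‖ * ‖Q.eval z‖) := by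
  have hne : F - C β * Q ≠ 0 := by
    intro h
    have h1 : F = C β * Q := sub_eq_zero.mp h
    have h2 := congrArg (eval z) h1
    rw [hFz, eval_mul, eval_C] at h2
    rcases mul_eq_zero.mp h2.symm with h3 | h3
    · rw [h3] at h1
      apply hF
      rw [h1]
      simp
    · exact hQz h3
  refine ⟨hne, ?_⟩
  have hβ : gn z t (C β * Q) = ‖β‖ * ‖Q.eval z‖ := by rw [gn_CQ z t ht, hQt]
  refine le_antisymm ?_ ?_
  · have := gn_add_le z t ht F (-(C β * Q))
    rw [gn_neg z t ht, hβ, ← sub_eq_add_neg] at this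
    exact this
  · have hconst : ‖β‖ * ‖Q.eval z‖ ≤ gn z t (F - C β * Q) := by
      have := (hNPOL K (F - C β * Q) z t hne ht).2.1 0
      rw [taylor_coeff_zero, eval_sub, hFz, eval_mul, eval_C] at this
      simpa using this
    refine max_le ?_ hconst
    by_contra hcon
    push Not at hcon
    have h1 := gn_add_le z t ht (F - C β * Q) (C β * Q)
    rw [sub_add_cancel, hβ] at h1
    rcases le_max_iff.mp h1 with h2 | h2
    · linarith
    · linarith

/-- the image of `ζ_{z,t}` -/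
lemma img (hACT : S_ACT.{u}) (hNPOL : S_NPOL.{u}) (hZT : S_ZT.{u}) (g : RMap K) (z : K) (T : ℝ)
    (hT : 0 < T) (hQ : ∀ w : K, g.Q.eval w = 0 → T ≤ ‖w - z‖) (t : ℝ) (ht : 0 < t) (htT : t < T) :
    ∃ y : BA K, HK y ∧ g.act ((gauss z t ht : BA K) : P1B K) = (y : P1B K) ∧
      (∀ b, lam y b = max ‖g.P.eval z / g.Q.eval z - b‖
        (gn z t (g.P - C (g.P.eval z / g.Q.eval z) * g.Q) / ‖g.Q.eval z‖)) ∧
      (y : P1B K) = zt (g.P.eval z / g.Q.eval z)
        (gn z t (g.P - C (g.P.eval z / g.Q.eval z) * g.Q) / ‖g.Q.eval z‖) := by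
  obtain ⟨hz, hF, hFz, hg⟩ := cen hNPOL g z T hT hQ
  set c := g.P.eval z / g.Q.eval z with hc
  set F := g.P - C c * g.Q with hFd
  have hHK := (hZT K).2.2.1 z t ht
  obtain ⟨y, hy1, hy2, -, hy4⟩ := (hACT K g).1 (gauss z t ht) hHK
  have hpos : 0 < ‖g.Q.eval z‖ := norm_pos_iff.2 hz
  have hlam : ∀ b, lam y b = max ‖c - b‖ (gn z t F / ‖g.Q.eval z‖) := by
    intro b
    rw [hy4 b]
    have e1 : g.P - C b * g.Q = F - C (b - c) * g.Q := by
      rw [hFd, C_sub]
      ring
    have e2 := (gnmax hNPOL z t ht F g.Q hF hFz hz (hg t ht htT) (b - c)).2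
    rw [gn_eq z t ht, ← e1] at e2
    rw [e2, ← gn_eq z t ht g.Q, hg t ht htT, ← max_div_div_right hpos.le]
    rw [mul_div_assoc, div_self hpos.ne', mul_one, max_comm, norm_sub_rev]
  refine ⟨y, hy1, hy2, hlam, ?_⟩
  exact (hZT K).2.2.2 c _ y (div_pos (hNPOL K F z t hF ht).1 hpos) hlam

/-- strictly smaller below -/
lemma below (hVAL : S_VAL.{u}) (hISO : S_ISO.{u}) (hGLAM : S_GLAM.{u}) (hNPOL : S_NPOL.{u})
    (z : K) (t : ℝ) (ht : 0 < t) (F : K[X]) (hF : F ≠ 0) (hFz : F.eval z = 0) (v : BA K)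
    (hv : lam v z < t) : v F < gn z t F := by
  obtain ⟨F1, hF1⟩ : (X - C z) ∣ F := dvd_iff_isRoot.2 hFz
  have hF1' : F1 ≠ 0 := by
    rintro rfl
    exact hF (by rw [hF1, mul_zero])
  have h1 : v F = lam v z * v F1 := by rw [hF1, v.map_mul']; rfl
  have h2 : gn z t F = t * gn z t F1 := by
    rw [hF1, gn_mul z t ht]
    congr 1
    have := (hGLAM K z z).2 t ht
    rw [sub_self, norm_zero, max_eq_right ht.le] at this
    exact this
  have h3 : v F1 ≤ gn z t F1 := by
    rw [gn_eq z t ht]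
    apply prod_le hVAL
    intro w _
    rw [(hGLAM K z w).2 t ht]
    have := (hISO K v w z).1
    refine this.trans (max_le (hv.le.trans (le_max_right _ _)) ?_)
    rw [norm_sub_rev]
    exact le_max_left _ _
  have h4 := (hNPOL K F1 z t hF1' ht).1
  rw [h1, h2]
  calc lam v z * v F1 ≤ lam v z * gn z t F1 := mul_le_mul_of_nonneg_left h3 (lam_nonneg v z)
    _ < t * gn z t F1 := mul_lt_mul_of_pos_right hv h4

/-- strictly larger above -/
lemma above (hVAL : S_VAL.{u}) (hISO : S_ISO.{u}) (hGLAM : S_GLAM.{u}) (hNPOL : S_NPOL.{u})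
    (z : K) (t t' : ℝ) (ht : 0 < t) (F : K[X]) (hF : F ≠ 0) (hFz : F.eval z = 0)
    (hno : ∀ w : K, F.eval w = 0 → t < ‖w - z‖ → t' < ‖w - z‖) (v : BA K)
    (hv : t < lam v z) (hv' : lam v z ≤ t') : gn z t F < v F := by
  obtain ⟨F1, hF1⟩ : (X - C z) ∣ F := dvd_iff_isRoot.2 hFz
  have hF1' : F1 ≠ 0 := by
    rintro rfl
    exact hF (by rw [hF1, mul_zero])
  have h1 : v F = lam v z * v F1 := by rw [hF1, v.map_mul']; rfl
  have h2 : gn z t F = t * gn z t F1 := by
    rw [hF1, gn_mul z t ht]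
    congr 1
    have := (hGLAM K z z).2 t ht
    rw [sub_self, norm_zero, max_eq_right ht.le] at this
    exact this
  have h3 : gn z t F1 ≤ v F1 := by
    rw [gn_eq z t ht]
    apply prod_le hVAL
    intro w hw
    rw [(hGLAM K z w).2 t ht]
    have hw0 : F.eval w = 0 := by
      rw [hF1, eval_mul, ((mem_roots hF1').1 hw : F1.IsRoot w).eq_zero, mul_zero]
    by_cases hc : t < ‖w - z‖
    · have h5 := hno w hw0 hc
      have h6 := (hISO K v w z).2.2.1 (by linarith)
      rw [h6, norm_sub_rev]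
      exact max_le le_rfl hc.le
    · push Not at hc
      have h6 := (hISO K v w z).2.2.2 (by linarith)
      rw [h6, norm_sub_rev]
      exact max_le (by linarith) hv.le
  have h4 := (hNPOL K F1 z t hF1' ht).1
  rw [h1, h2]
  calc t * gn z t F1 < lam v z * gn z t F1 := mul_lt_mul_of_pos_right hv h4
    _ ≤ lam v z * v F1 := mul_le_mul_of_nonneg_left h3 (lam_nonneg v z)

lemma cnt_ball (g : RMap K) (a : K) (r : ℝ) (b : K) (hGLAM : S_GLAM.{u}) :
    cnt g (ball a r) b = nIn (g.P - C b * g.Q) {w | ‖w - a‖ < r} := by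
  classical
  unfold cnt fib nIn
  rw [Multiset.filter_add, Multiset.card_add]
  have h1 : (Multiset.filter (fun w => w ∈ ball a r)
      (Multiset.replicate (g.d - (g.P - C b * g.Q).natDegree) (OnePoint.infty : P1B K))) = 0 := by
    rw [Multiset.filter_eq_nil]
    intro x hx
    rw [Multiset.eq_of_mem_replicate hx]
    rintro ⟨y, hy, -⟩
    exact OnePoint.infty_ne_coe y hy
  rw [Multiset.filter_map, Multiset.card_map]
  have h2 : ∀ w : K, (((cl w : BA K) : P1B K) ∈ ball a r) ↔ ‖w - a‖ < r := by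
    intro w
    constructor
    · rintro ⟨y, hy, hlt⟩
      have : (cl w : BA K) = y := OnePoint.coe_injective hy
      rw [← this, (hGLAM K w a).1] at hlt
      exact hlt
    · intro h
      exact ⟨_, rfl, by rw [(hGLAM K w a).1]; exact h⟩
  simp only [h1, Multiset.card_zero, add_zero]
  congr 1
  apply Multiset.filter_congr
  intro w _
  simp only [Function.comp, Set.mem_ofPred_eq]
  exact h2 w

/-- counting roots of `F - β Q` -/
lemma count (hNPOL : S_NPOL.{u}) (z : K) (t t' : ℝ) (ht : 0 < t) (htt : t < t') (F Q : K[X])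
    (hF : F ≠ 0) (hFz : F.eval z = 0) (hQz : Q.eval z ≠ 0) (hQt : gn z t' Q = ‖Q.eval z‖)
    (hQ0 : Q ≠ 0)
    (hno : ∀ w : K, F.eval w = 0 → t < ‖w - z‖ → t' < ‖w - z‖) (β : K)
    (hβ : ‖β‖ * ‖Q.eval z‖ < gn z t' F) :
    nIn (F - C β * Q) {w | ‖w - z‖ < t'} = nIn F {w | ‖w - z‖ ≤ t} := by
  have ht' : 0 < t' := ht.trans htt
  obtain ⟨hH0, hH⟩ := gnmax hNPOL z t' ht' F Q hF hFz hQz hQt β
  rw [max_eq_left hβ.le] at hH
  have e1 : nIn F {w | ‖w - z‖ < t'} = nIn F {w | ‖w - z‖ ≤ t} := by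
    unfold nIn
    congr 1
    apply Multiset.filter_congr
    intro w hw
    have hw0 : F.eval w = 0 := (mem_roots hF).1 hw
    simp only [Set.mem_ofPred_eq]
    constructor
    · intro h
      by_contra hcon
      push Not at hcon
      have := hno w hw0 hcon
      linarith
    · intro h
      linarith
  set e := nIn F {w | ‖w - z‖ ≤ t} with he
  have nF := hNPOL K F z t' hF ht'
  rw [e1] at nF
  have nH := hNPOL K (F - C β * Q) z t' hH0 ht'
  have nQ := hNPOL K Q z t' hQ0 ht'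
  have hQi : ∀ i, ‖β * (taylor z Q).coeff i‖ * t' ^ i < gn z t' F := by
    intro i
    have h1 := nQ.2.1 i
    rw [hQt] at h1
    calc ‖β * (taylor z Q).coeff i‖ * t' ^ i = ‖β‖ * (‖(taylor z Q).coeff i‖ * t' ^ i) := by
          rw [norm_mul]; ring
      _ ≤ ‖β‖ * ‖Q.eval z‖ := mul_le_mul_of_nonneg_left h1 (norm_nonneg _)
      _ < gn z t' F := hβ
  have hcoef : ∀ i, (taylor z (F - C β * Q)).coeff i
      = (taylor z F).coeff i - β * (taylor z Q).coeff i := by
    intro i
    rw [map_sub, coeff_sub, taylor_mul, taylor_C, coeff_C_mul]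
  have hlt : ∀ i < e, ‖(taylor z (F - C β * Q)).coeff i‖ * t' ^ i < gn z t' F := by
    intro i hi
    rw [hcoef]
    have h1 := nF.2.2.2.1 i hi
    have h2 := hQi i
    have h3 : ‖(taylor z F).coeff i - β * (taylor z Q).coeff i‖
        ≤ max ‖(taylor z F).coeff i‖ ‖β * (taylor z Q).coeff i‖ := by
      have := IsUltrametricDist.norm_add_le_max ((taylor z F).coeff i) (-(β * (taylor z Q).coeff i))
      rwa [norm_neg, ← sub_eq_add_neg] at this
    have hp : 0 < t' ^ i := pow_pos ht' i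
    calc ‖(taylor z F).coeff i - β * (taylor z Q).coeff i‖ * t' ^ i
        ≤ max ‖(taylor z F).coeff i‖ ‖β * (taylor z Q).coeff i‖ * t' ^ i :=
          mul_le_mul_of_nonneg_right h3 hp.le
      _ = max (‖(taylor z F).coeff i‖ * t' ^ i) (‖β * (taylor z Q).coeff i‖ * t' ^ i) := by
          rw [max_mul_of_nonneg _ _ hp.le]
      _ < gn z t' F := max_lt h1 h2
  have hat : ‖(taylor z (F - C β * Q)).coeff e‖ * t' ^ e = gn z t' F := by
    rw [hcoef]
    have h1 := nF.2.2.1
    have h2 := hQi e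
    have hp : 0 < t' ^ e := pow_pos ht' e
    have h3 : ‖β * (taylor z Q).coeff e‖ < ‖(taylor z F).coeff e‖ := by
      rw [← h1] at h2
      exact lt_of_mul_lt_mul_right h2 hp.le
    have h4 : ‖(taylor z F).coeff e - β * (taylor z Q).coeff e‖ = ‖(taylor z F).coeff e‖ := by
      rw [sub_eq_add_neg, IsUltrametricDist.norm_add_eq_max_of_norm_ne_norm, norm_neg,
        max_eq_left h3.le]
      rw [norm_neg]
      exact h3.ne'
    rw [h4]
    exact h1
  rcases lt_trichotomy (nIn (F - C β * Q) {w | ‖w - z‖ < t'}) e with h | h | h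
  · exfalso
    have h1 := hlt _ h
    rw [nH.2.2.1, hH] at h1
    exact lt_irrefl _ h1
  · exact h
  · exfalso
    have h1 := nH.2.2.2.1 _ h
    rw [hat, hH] at h1
    exact lt_irrefl _ h1

/-- a radius slightly larger without new roots -/
lemma gap (F : K[X]) (hF : F ≠ 0) (z : K) (t T : ℝ) (htT : t < T) :
    ∃ t', t < t' ∧ t' < T ∧ ∀ w : K, F.eval w = 0 → t < ‖w - z‖ → t' < ‖w - z‖ := by
  classical
  set S : Finset ℝ := insert T ((F.roots.toFinset.image (fun w => ‖w - z‖)).filter (fun r => t < r))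
    with hS
  have hne : S.Nonempty := ⟨T, by simp [hS]⟩
  have hmin : t < S.min' hne := by
    have key : ∀ r ∈ S, t < r := by
      intro r hr
      rw [hS] at hr
      simp only [Finset.mem_insert, Finset.mem_filter] at hr
      rcases hr with h | h
      · rw [h]; exact htT
      · exact h.2
    exact key _ (S.min'_mem hne)
  obtain ⟨t', h1, h2⟩ := exists_between hmin
  refine ⟨t', h1, h2.trans_le (S.min'_le T (by simp [hS])), ?_⟩
  intro w hw hlt
  refine h2.trans_le (S.min'_le _ ?_)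
  rw [hS]
  simp only [Finset.mem_insert, Finset.mem_filter, Finset.mem_image, Multiset.mem_toFinset]
  right
  exact ⟨⟨w, (mem_roots hF).2 hw, rfl⟩, hlt⟩

/-- the local degree -/
lemma ldeg (hACT : S_ACT.{u}) (hNPOL : S_NPOL.{u}) (hNB : S_NB.{u}) (hISO : S_ISO.{u})
    (hVAL : S_VAL.{u}) (hGLAM : S_GLAM.{u}) (hZT : S_ZT.{u}) (hUNIQ : S_UNIQ.{u})
    (g : RMap K) (a : K) (T : ℝ) (hT : 0 < T) (hQ : ∀ w : K, g.Q.eval w = 0 → T ≤ ‖w - a‖)
    (t : ℝ) (ht : 0 < t) (htT : t < T) :
    localDeg g (zt a t) = nIn (g.P - C (g.P.eval a / g.Q.eval a) * g.Q) {w | ‖w - a‖ ≤ t} := by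
  obtain ⟨hQa, hF, hFa, hgQ⟩ := cen hNPOL g a T hT hQ
  obtain ⟨y, hy1, hy2, hy3, -⟩ := img hACT hNPOL hZT g a T hT hQ t ht htT
  set c := g.P.eval a / g.Q.eval a with hc
  set F := g.P - C c * g.Q with hFd
  have hpos : 0 < ‖g.Q.eval a‖ := norm_pos_iff.2 hQa
  have hQ0 : g.Q ≠ 0 := by
    intro h
    apply hQa
    rw [h]
    simp
  obtain ⟨t', htt, ht'T, hno⟩ := gap F hF a t T htT
  have ht' : 0 < t' := ht.trans htt
  rw [zt_pos a ht]
  refine hUNIQ K g (gauss a t ht) y ((hZT K).2.2.1 a t ht) hy2 (ball a t') ((hNB K).2.2.1 a t') ?_ ?_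
    _ ?_
  · refine ⟨_, rfl, ?_⟩
    rw [(hGLAM K a a).2 t ht, sub_self, norm_zero, max_eq_right ht.le]
    exact htt
  · intro w hw hact
    have hcl : IsClosed ({x : P1B K | ∀ y : BA K, x = (y : P1B K) → t' < lam y a}ᶜ) :=
      ((hNB K).2.2.2 a t').isClosed_compl
    have hsub : ball a t' ⊆ {x : P1B K | ∀ y : BA K, x = (y : P1B K) → t' < lam y a}ᶜ := by
      rintro x ⟨v, hv, hlt⟩ hx
      have := hx v hv
      linarith
    have hw2 := closure_minimal hsub hcl hw
    have hw3 : ∃ v : BA K, w = (v : P1B K) ∧ lam v a ≤ t' := by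
      by_contra hcon
      push Not at hcon
      exact hw2 hcon
    obtain ⟨v, rfl, hv⟩ := hw3
    have hvHK : HK v := by
      intro z hz
      rw [hz] at hact
      by_cases hQz : g.Q.eval z = 0
      · rw [(hACT K g).2.2.1 z hQz] at hact
        exact OnePoint.infty_ne_coe y hact
      · rw [(hACT K g).2.1 z hQz] at hact
        exact hy1 _ (OnePoint.coe_injective hact).symm
    obtain ⟨y', -, hy'2, -, hy'4⟩ := (hACT K g).1 v hvHK
    have hyy : y' = y := OnePoint.coe_injective (hy'2.symm.trans hact)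
    subst hyy
    have hvQ : v g.Q = ‖g.Q.eval a‖ := by
      refine valQ hVAL hISO hGLAM v a g.Q fun w hw => ?_
      have := hQ w ((mem_roots hQ0).1 hw)
      linarith
    have hvF : v F = gn a t F := by
      have h1 := hy'4 c
      rw [hy3 c, sub_self, norm_zero, hvQ] at h1
      have h2 : 0 < gn a t F / ‖g.Q.eval a‖ := div_pos (hNPOL K F a t hF ht).1 hpos
      rw [max_eq_right h2.le] at h1
      field_simp at h1
      exact h1.symm
    rcases lt_or_ge t (lam v a) with hlt | hle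
    · exfalso
      have := above hVAL hISO hGLAM hNPOL a t t' ht F hF hFa hno v hlt hv
      linarith
    · by_cases hall : ∀ b, lam v b = max ‖a - b‖ t
      · rw [← zt_pos a ht]
        exact (hZT K).2.2.2 a t v ht hall
      · exfalso
        push Not at hall
        obtain ⟨z, hz⟩ := hall
        have h1 := (hISO K v z a).1
        have hza : ‖a - z‖ ≤ t := by
          by_contra hcon
          push Not at hcon
          have h2 := (hISO K v z a).2.2.1 (by rw [norm_sub_rev]; linarith)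
          apply hz
          rw [h2, norm_sub_rev, max_eq_left hcon.le]
        rw [max_eq_right hza] at hz
        have hz2 : lam v z < t := by
          refine lt_of_le_of_ne (h1.trans (max_le hle ?_)) hz
          rw [norm_sub_rev]
          exact hza
        have hQz : ∀ w : K, g.Q.eval w = 0 → T ≤ ‖w - z‖ := by
          intro w hw
          have h3 := hQ w hw
          have h4 : ‖w - a‖ ≤ max ‖w - z‖ ‖z - a‖ := by
            have := IsUltrametricDist.norm_add_le_max (w - z) (z - a)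
            rwa [sub_add_sub_cancel] at this
          have h5 : ‖z - a‖ < T := by
            rw [norm_sub_rev]
            linarith
          rcases le_max_iff.mp h4 with h6 | h6
          · linarith
          · linarith
        obtain ⟨hQz0, hF2, hF2z, -⟩ := cen hNPOL g z T hT hQz
        obtain ⟨y2, -, hy22, hy23, -⟩ := img hACT hNPOL hZT g z T hT hQz t ht htT
        have hposz : 0 < ‖g.Q.eval z‖ := norm_pos_iff.2 hQz0
        have hzz : ((gauss a t ht : BA K) : P1B K) = ((gauss z t ht : BA K) : P1B K) := by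
          rw [← zt_pos a ht, ← zt_pos z ht]
          exact ((hZT K).1 a z t t ht ht).2 ⟨rfl, hza⟩
        rw [← hzz, hy2] at hy22
        have hyy2 : y' = y2 := OnePoint.coe_injective hy22
        subst hyy2
        have hvQz : v g.Q = ‖g.Q.eval z‖ := by
          refine valQ hVAL hISO hGLAM v z g.Q fun w hw => ?_
          have := hQz w ((mem_roots hQ0).1 hw)
          linarith
        have h6 := hy'4 (g.P.eval z / g.Q.eval z)
        rw [hy23, sub_self, norm_zero, hvQz] at h6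
        set F2 := g.P - C (g.P.eval z / g.Q.eval z) * g.Q with hF2d
        have h7 : 0 < gn z t F2 / ‖g.Q.eval z‖ := div_pos (hNPOL K F2 z t hF2 ht).1 hposz
        rw [max_eq_right h7.le] at h6
        have h8 : gn z t F2 = v F2 := by
          field_simp at h6
          exact h6
        have := below hVAL hISO hGLAM hNPOL z t ht F2 hF2 hF2z v hz2
        linarith
  · have hlt : gn a t F < gn a t' F := by
      have := below hVAL hISO hGLAM hNPOL a t' ht' F hF hFa (gauss a t ht)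
        (by rw [(hGLAM K a a).2 t ht, sub_self, norm_zero, max_eq_right ht.le]; exact htt)
      exact this
    have hmem : (y : P1B K) ∈ ball c (gn a t' F / ‖g.Q.eval a‖) := by
      refine ⟨y, rfl, ?_⟩
      rw [hy3 c, sub_self, norm_zero]
      refine max_lt (div_pos (hNPOL K F a t' hF ht').1 hpos) ?_
      exact div_lt_div_of_pos_right hlt hpos
    have hnh : ball c (gn a t' F / ‖g.Q.eval a‖) ∈ 𝓝 (y : P1B K) :=
      ((hNB K).2.2.1 c _).mem_nhds hmem
    have hev : ∀ᶠ b in toward (y : P1B K),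
        ((cl b : BA K) : P1B K) ∈ ball c (gn a t' F / ‖g.Q.eval a‖) :=
      (tendsto_comap (f := fun b : K => ((cl b : BA K) : P1B K)) (x := 𝓝 (y : P1B K))) hnh
    refine hev.mono fun b hb => ?_
    obtain ⟨v, hv1, hv2⟩ := hb
    have hv3 : (cl b : BA K) = v := OnePoint.coe_injective hv1
    rw [← hv3, (hGLAM K b c).1] at hv2
    rw [cnt_ball g a t' b hGLAM]
    have e1 : g.P - C b * g.Q = F - C (b - c) * g.Q := by
      rw [hFd, C_sub]
      ring
    rw [e1]
    refine count hNPOL a t t' ht htt F g.Q hF hFa hQa (hgQ t' ht' ht'T) hQ0 hno (b - c) ?_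
    rwa [lt_div_iff₀ hpos] at hv2

end

theorem main (hACT : S_ACT.{u}) (hNPOL : S_NPOL.{u}) (hNB : S_NB.{u}) (hISO : S_ISO.{u})
    (hVAL : S_VAL.{u}) (hGLAM : S_GLAM.{u}) (hZT : S_ZT.{u}) (hUNIQ : S_UNIQ.{u}) :
    S_OFF.{u} := by
  intro K _ _ _ g a T hT hQ
  obtain ⟨hQa, hF, hFa, hgQ⟩ := cen hNPOL g a T hT hQ
  have hld := ldeg hACT hNPOL hNB hISO hVAL hGLAM hZT hUNIQ g a T hT hQ
  have himg := img hACT hNPOL hZT g a T hT hQ
  set c := g.P.eval a / g.Q.eval a with hc
  set F := g.P - C c * g.Q with hFd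
  have hpos : 0 < ‖g.Q.eval a‖ := norm_pos_iff.2 hQa
  refine ⟨c, fun t => gn a t F / ‖g.Q.eval a‖, ?_, ?_, ?_⟩
  · intro t ht htT
    refine ⟨div_pos (hNPOL K F a t hF ht).1 hpos, ?_⟩
    obtain ⟨y, -, h2, -, h4⟩ := himg t ht htT
    rw [zt_pos a ht, h2, h4]
  · intro s t hs hst htT
    have ht : 0 < t := hs.trans_le hst
    rw [hld s hs (hst.trans_lt htT), hld t ht htT]
    have nS := hNPOL K F a s hF hs
    have nT := hNPOL K F a t hF ht
    refine ⟨?_, ?_, ?_⟩
    · unfold nIn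
      apply Multiset.card_le_card
      apply Multiset.monotone_filter_right
      intro w hw
      simp only [Set.mem_ofPred_eq] at hw ⊢
      exact hw.trans hst
    · have h1 := nS.2.2.2.2.1
      have h2 := nT.2.1 (nIn F {w | ‖w - a‖ ≤ s})
      rw [div_mul_eq_mul_div, div_le_div_iff_of_pos_right hpos, ← h1, div_pow, mul_assoc]
      refine le_trans (le_of_eq ?_) h2
      have : s ^ nIn F {w | ‖w - a‖ ≤ s} ≠ 0 := (pow_pos hs _).ne'
      field_simp
    · have h1 := nT.2.2.2.2.1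
      have h2 := nS.2.1 (nIn F {w | ‖w - a‖ ≤ t})
      rw [div_mul_eq_mul_div, div_le_div_iff_of_pos_right hpos, ← h1, div_pow]
      have h3 : 0 < s ^ nIn F {w | ‖w - a‖ ≤ t} := pow_pos hs _
      have h4 : 0 < t ^ nIn F {w | ‖w - a‖ ≤ t} := pow_pos ht _
      calc ‖(taylor a F).coeff (nIn F {w | ‖w - a‖ ≤ t})‖ * t ^ nIn F {w | ‖w - a‖ ≤ t}
          = (‖(taylor a F).coeff (nIn F {w | ‖w - a‖ ≤ t})‖ * s ^ nIn F {w | ‖w - a‖ ≤ t}) *
            (t ^ nIn F {w | ‖w - a‖ ≤ t} / s ^ nIn F {w | ‖w - a‖ ≤ t}) := by field_simp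
        _ ≤ _ := mul_le_mul_of_nonneg_right h2 (by positivity)
  · intro s hs hsT
    obtain ⟨t', htt, ht'T, hno⟩ := gap F hF a s T hsT
    refine ⟨t' - s, by linarith, ?_⟩
    intro t hst htlt
    have ht : 0 < t := hs.trans_le hst
    rw [hld s hs hsT, hld t ht (by linarith)]
    unfold nIn
    congr 1
    apply Multiset.filter_congr
    intro w hw
    have hw0 : F.eval w = 0 := (mem_roots hF).1 hw
    simp only [Set.mem_ofPred_eq]
    constructor
    · intro h
      by_contra hcon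
      push Not at hcon
      have := hno w hw0 hcon
      linarith
    · intro h
      linarith

end Pool.Agent.W284.BE.Off
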